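import Pool.Agent.TH525.LAD.Step
import Pool.Agent.TH525.LAD.Konig
import Pool.Agent.H931R3.LAMain

set_option autoImplicit false

/-!
Linear forests from a proper edge colouring of a graph in which every vertex is split in two,
all edges to earlier vertices staying at the first half.
-/

namespace Pool.Agent.TH525.LAD

open Finset H931R3.LA

theorem cov_of_split {V : Type} (G : SimpleGraph V) (L : ℕ) (ρ : V → ℕ)
    (hρ : Function.Injective ρ) (s : V → V → Bool) (φ : V → V → ℕ)
    (hsym : ∀ u v, G.Adj u v → φ u v = φ v u) (hlt : ∀ u v, G.Adj u v → φ u v < L)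
    (hs : ∀ u v, G.Adj u v → ρ v < ρ u → s u v = false)
    (hprop : ∀ u v w, G.Adj u v → G.Adj u w → s u v = s u w → φ u v = φ u w → v = w) :
    Cov G L := by
  classical
  let F : Fin L → SimpleGraph V := fun i =>
    { Adj := fun u v => G.Adj u v ∧ φ u v = i
      symm := ⟨fun u v h => ⟨h.1.symm, by rw [← hsym u v h.1]; exact h.2⟩⟩
      loopless := ⟨fun u h => G.loopless.irrefl u h.1⟩ }
  refine ⟨F, fun i => ⟨?_, ?_⟩, ?_⟩
  · -- acyclic
    intro v c hc
    obtain ⟨u, hu, hmax⟩ := Finset.exists_max_image c.support.toFinset ρ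
      ⟨v, by simp⟩
    rw [List.mem_toFinset] at hu
    have hcyc : (c.rotate u hu).IsCycle := hc.rotate hu
    set d := c.rotate u hu with hd
    have hnil : ¬ d.Nil := hcyc.not_nil
    have h1 : (F i).Adj u d.snd := d.adj_snd hnil
    have h2 : (F i).Adj d.penultimate u := d.adj_penultimate hnil
    have hne : d.snd ≠ d.penultimate := hcyc.snd_ne_penultimate
    have hm : ∀ x ∈ d.support, x ≠ u → ρ x < ρ u := by
      intro x hx hxu
      rw [hd, SimpleGraph.Walk.mem_support_rotate_iff] at hx
      have h3 := hmax x (by rw [List.mem_toFinset]; exact hx)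
      rcases Nat.lt_or_ge (ρ x) (ρ u) with h4 | h4
      · exact h4
      · exact absurd (hρ (le_antisymm h3 h4)) hxu
    have h3 : ρ d.snd < ρ u :=
      hm _ (d.getVert_mem_support 1) h1.1.ne'
    have h4 : ρ d.penultimate < ρ u :=
      hm _ (d.getVert_mem_support _) h2.1.ne
    apply hne
    refine hprop u d.snd d.penultimate h1.1 h2.1.symm ?_ ?_
    · rw [hs u d.snd h1.1 h3, hs u d.penultimate h2.1.symm h4]
    · rw [h1.2, hsym u d.penultimate h2.1.symm, h2.2]
  · -- degrees
    intro v
    have h1 : Set.InjOn (s v) ((F i).neighborSet v) := by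
      intro a ha b hb hab
      exact hprop v a b ha.1 hb.1 hab (by rw [ha.2, hb.2])
    rw [← Set.ncard_image_of_injOn h1]
    refine le_trans (Set.ncard_le_ncard (Set.subset_univ _) Set.finite_univ) ?_
    rw [Set.ncard_univ]
    simp
  · ext u v
    simp only [SimpleGraph.iSup_adj, F]
    constructor
    · rintro ⟨i, h, _⟩; exact h
    · intro h; exact ⟨⟨φ u v, hlt u v h⟩, h, rfl⟩

/-- An ordering in which every vertex has at most `k` neighbours before it. -/
theorem exists_rank {V : Type} [Fintype V] (G : SimpleGraph V) (k : ℕ)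
    (hk : ∀ S : Set V, S.Nonempty → ∃ v ∈ S, (G.neighborSet v ∩ S).ncard ≤ k) :
    ∃ ρ : V → ℕ, Function.Injective ρ ∧ ∀ v, {u | G.Adj v u ∧ ρ u < ρ v}.ncard ≤ k := by
  classical
  have key : ∀ (n : ℕ) (S : Finset V), S.card = n → ∃ ρ : V → ℕ,
      (∀ v ∈ S, ρ v < n) ∧ (∀ u ∈ S, ∀ v ∈ S, ρ u = ρ v → u = v) ∧
      ∀ v ∈ S, {u | u ∈ S ∧ G.Adj v u ∧ ρ u < ρ v}.ncard ≤ k := by
    intro n
    induction n with
    | zero =>
      intro S hS
      rw [Finset.card_eq_zero] at hS
      subst hS
      exact ⟨fun _ => 0, by simp, by simp, by simp⟩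
    | succ n ih =>
      intro S hS
      obtain ⟨v, hv, hvk⟩ := hk (S : Set V) (by
        rw [Finset.coe_nonempty, ← Finset.card_pos]; omega)
      have hvS : v ∈ S := hv
      obtain ⟨ρ, h1, h2, h3⟩ := ih (S.erase v) (by rw [Finset.card_erase_of_mem hvS]; omega)
      have hlt : ∀ u ∈ S, u ≠ v → ρ u < n := fun u hu huv => h1 u (mem_erase.mpr ⟨huv, hu⟩)
      refine ⟨fun u => if u = v then n else ρ u, ?_, ?_, ?_⟩
      · intro u hu
        by_cases h : u = v
        · simp [h]
        · have := hlt u hu h
          simp only [h, if_false]; omega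
      · intro a ha b hb hab
        by_cases h : a = v
        · by_cases h' : b = v
          · rw [h, h']
          · have := hlt b hb h'
            simp only [h, h', if_true, if_false] at hab; omega
        · by_cases h' : b = v
          · have := hlt a ha h
            simp only [h, h', if_true, if_false] at hab; omega
          · simp only [h, h', if_false] at hab
            exact h2 a (mem_erase.mpr ⟨h, ha⟩) b (mem_erase.mpr ⟨h', hb⟩) hab
      · intro a ha
        by_cases h : a = v
        · subst h
          refine le_trans (Set.ncard_le_ncard ?_ (Set.toFinite _)) hvk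
          rintro u ⟨hu1, hu2, _⟩
          exact ⟨hu2, hu1⟩
        · refine le_trans (Set.ncard_le_ncard ?_ (Set.toFinite _)) (h3 a (mem_erase.mpr ⟨h, ha⟩))
          rintro u ⟨hu1, hu2, hu3⟩
          have huv : u ≠ v := by
            rintro rfl
            have := hlt a ha h
            simp only [if_true, h, if_false] at hu3
            omega
          simp only [h, huv, if_false] at hu3
          exact ⟨mem_erase.mpr ⟨huv, hu1⟩, hu2, hu3⟩
  obtain ⟨ρ, _, h2, h3⟩ := key _ univ rfl
  refine ⟨ρ, fun a b hab => h2 a (mem_univ a) b (mem_univ b) hab, fun v => ?_⟩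
  refine le_trans (le_of_eq ?_) (h3 v (mem_univ v))
  congr 1
  ext u
  simp

section split

variable {V : Type} [Fintype V] [DecidableEq V] (G : SimpleGraph V) [DecidableRel G.Adj]
  (ρ : V → ℕ) (T : V → Finset V)

/-- The half of `a` at which the edge `ab` ends. -/
def side (a b : V) : Bool := if ρ b < ρ a then false else decide (b ∈ T a)

/-- The graph in which every vertex is split in two. -/
def spl : SimpleGraph (V × Bool) where
  Adj x y := G.Adj x.1 y.1 ∧ x.2 = side ρ T x.1 y.1 ∧ y.2 = side ρ T y.1 x.1
  symm := ⟨fun _ _ h => ⟨h.1.symm, h.2.2, h.2.1⟩⟩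
  loopless := ⟨fun x h => G.loopless.irrefl x.1 h.1⟩

instance : DecidableRel (spl G ρ T).Adj := fun x y =>
  inferInstanceAs (Decidable (G.Adj x.1 y.1 ∧ x.2 = side ρ T x.1 y.1 ∧ y.2 = side ρ T y.1 x.1))

/-- later neighbours -/
def later (a : V) : Finset V := univ.filter (fun b => G.Adj a b ∧ ρ a < ρ b)

/-- earlier neighbours -/
def earlier (a : V) : Finset V := univ.filter (fun b => G.Adj a b ∧ ρ b < ρ a)

theorem deg_spl (x : V × Bool) :
    (spl G ρ T).degree x = (univ.filter (fun b => G.Adj x.1 b ∧ x.2 = side ρ T x.1 b)).card := by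
  rw [← SimpleGraph.card_neighborFinset_eq_degree]
  refine Finset.card_bij (fun y _ => y.1) ?_ ?_ ?_
  · intro y hy
    rw [SimpleGraph.mem_neighborFinset] at hy
    simp only [mem_filter, mem_univ, true_and]
    exact ⟨hy.1, hy.2.1⟩
  · intro y hy z hz h
    rw [SimpleGraph.mem_neighborFinset] at hy hz
    refine Prod.ext h ?_
    rw [hy.2.2, hz.2.2, h]
  · intro b hb
    simp only [mem_filter, mem_univ, true_and] at hb
    refine ⟨(b, side ρ T b x.1), ?_, rfl⟩
    rw [SimpleGraph.mem_neighborFinset]
    exact ⟨hb.1, hb.2, rfl⟩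

variable (hρ : Function.Injective ρ) (hT : ∀ a, T a ⊆ later G ρ a)

include hT in
theorem deg_true (a : V) : (spl G ρ T).degree (a, true) = (T a).card := by
  rw [deg_spl]
  congr 1
  ext b
  simp only [mem_filter, mem_univ, true_and, side]
  constructor
  · rintro ⟨h1, h2⟩
    by_cases h : ρ b < ρ a
    · rw [if_pos h] at h2; exact absurd h2 (by decide)
    · rw [if_neg h] at h2
      exact of_decide_eq_true h2.symm
  · intro h
    have h1 := hT a h
    simp only [later, mem_filter, mem_univ, true_and] at h1
    refine ⟨h1.1, ?_⟩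
    rw [if_neg (by omega)]
    simp [h]

include hρ hT in
theorem deg_false (a : V) :
    (spl G ρ T).degree (a, false) = (earlier G ρ a).card + ((later G ρ a).card - (T a).card) := by
  rw [deg_spl, ← Finset.card_sdiff_of_subset (hT a), ← Finset.card_union_of_disjoint]
  · congr 1
    ext b
    simp only [mem_filter, mem_univ, true_and, side, mem_union, earlier, mem_sdiff, later]
    constructor
    · rintro ⟨h1, h2⟩
      by_cases h : ρ b < ρ a
      · exact Or.inl ⟨h1, h⟩
      · right
        rw [if_neg h] at h2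
        have h3 : ρ b ≠ ρ a := fun h' => h1.ne (hρ h').symm
        refine ⟨⟨h1, by omega⟩, ?_⟩
        exact of_decide_eq_false h2.symm
    · rintro (⟨h1, h2⟩ | ⟨⟨h1, h2⟩, h3⟩)
      · exact ⟨h1, by rw [if_pos h2]⟩
      · refine ⟨h1, ?_⟩
        rw [if_neg (by omega)]
        simp [h3]
  · rw [Finset.disjoint_left]
    intro b hb hb'
    simp only [mem_filter, mem_univ, true_and, earlier, mem_sdiff, later] at hb hb'
    omega

include hρ in
theorem card_nbr (a : V) :
    (earlier G ρ a).card + (later G ρ a).card = (G.neighborSet a).ncard := by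
  rw [← Finset.card_union_of_disjoint]
  · rw [← Set.ncard_coe_finset]
    congr 1
    ext b
    simp only [coe_union, Set.mem_union, mem_coe, earlier, later, mem_filter, mem_univ, true_and,
      SimpleGraph.mem_neighborSet]
    constructor
    · rintro (h | h) <;> exact h.1
    · intro h
      have h3 : ρ b ≠ ρ a := fun h' => h.ne (hρ h').symm
      rcases Nat.lt_or_ge (ρ b) (ρ a) with h4 | h4
      · exact Or.inl ⟨h, h4⟩
      · exact Or.inr ⟨h, by omega⟩
  · rw [Finset.disjoint_left]
    intro b hb hb'
    simp only [mem_filter, mem_univ, true_and, earlier, later] at hb hb'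
    omega

include hρ in
theorem cov_of_col (L : ℕ) (φ : V × Bool → V × Bool → ℕ) (h1 : ∀ u v, φ u v = φ v u)
    (h2 : ∀ u v, (spl G ρ T).Adj u v → φ u v < L)
    (h3 : ∀ u v w, (spl G ρ T).Adj u v → (spl G ρ T).Adj u w → φ u v = φ u w → v = w) :
    Cov G L := by
  refine cov_of_split G L ρ hρ (side ρ T)
    (fun u v => φ (u, side ρ T u v) (v, side ρ T v u)) ?_ ?_ ?_ ?_
  · intro u v _
    exact h1 _ _
  · intro u v h
    exact h2 _ _ ⟨h, rfl, rfl⟩
  · intro u v _ h
    simp [side, h]
  · intro u v w h h' hs he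
    have h4 := h3 (u, side ρ T u v) (v, side ρ T v u) (w, side ρ T w u) ⟨h, rfl, rfl⟩
      ⟨h', hs, rfl⟩ (by rw [he, hs])
    exact congrArg Prod.fst h4

end split

/-- Ingredients common to the three cases. -/
theorem exists_T {V : Type} [Fintype V] [DecidableEq V] (G : SimpleGraph V) [DecidableRel G.Adj]
    (ρ : V → ℕ) (t : ℕ) : ∃ T : V → Finset V, (∀ a, T a ⊆ later G ρ a) ∧
      ∀ a, (T a).card = min (later G ρ a).card t := by
  have : ∀ a, ∃ T ⊆ later G ρ a, T.card = min (later G ρ a).card t := fun a =>
    Finset.exists_subset_card_eq (min_le_left _ _)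
  choose T h1 h2 using this
  exact ⟨T, h1, h2⟩

theorem earlier_card {V : Type} [Fintype V] [DecidableEq V] (G : SimpleGraph V)
    [DecidableRel G.Adj] (ρ : V → ℕ) (a : V) :
    (earlier G ρ a).card = {u | G.Adj a u ∧ ρ u < ρ a}.ncard := by
  rw [← Set.ncard_coe_finset]
  congr 1
  ext u
  simp [earlier]

theorem cov_one {V : Type} [Finite V] (G : SimpleGraph V) (L k : ℕ)
    (hk : ∀ S : Set V, S.Nonempty → ∃ v ∈ S, (G.neighborSet v ∩ S).ncard ≤ k)
    (hd : ∀ v, (G.neighborSet v).ncard + 1 ≤ 2 * L) (hkL : k + 1 ≤ L) : Cov G L := by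
  classical
  have := Fintype.ofFinite V
  obtain ⟨ρ, hρ, hb⟩ := exists_rank G k hk
  obtain ⟨T, hT, hTc⟩ := exists_T G ρ L
  have ht : ∀ a, (spl G ρ T).degree (a, true) ≤ L := by
    intro a
    rw [deg_true G ρ T hT, hTc]
    exact min_le_right _ _
  have hf : ∀ a, (spl G ρ T).degree (a, false) + 1 ≤ L := by
    intro a
    rw [deg_false G ρ T hρ hT, hTc]
    have h1 := card_nbr G ρ hρ a
    have h2 := hd a
    have h3 := hb a
    rw [← earlier_card] at h3
    rcases Nat.le_total (later G ρ a).card L with h | h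
    · rw [min_eq_left h]; omega
    · rw [min_eq_right h]; omega
  obtain ⟨φ, p1, p2, p3⟩ := class_one (spl G ρ T) L
    (by
      rintro ⟨a, b⟩
      cases b
      · have := hf a; omega
      · exact ht a)
    (by
      rintro ⟨a, α⟩ ⟨b, β⟩ hadj h1 h2
      have hne : ρ a ≠ ρ b := fun h => hadj.1.ne (hρ h)
      rcases Nat.lt_or_ge (ρ b) (ρ a) with h | h
      · have h3 : α = false := by
          have := hadj.2.1
          simpa [side, h] using this
        subst h3
        have := hf a
        omega
      · have h' : ρ a < ρ b := by omega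
        have h3 : β = false := by
          have := hadj.2.2
          simpa [side, h'] using this
        subst h3
        have := hf b
        omega)
  exact cov_of_col G ρ T hρ L φ p1 p2 p3

theorem cov_two {V : Type} [Finite V] (G : SimpleGraph V) (L k : ℕ)
    (hk : ∀ S : Set V, S.Nonempty → ∃ v ∈ S, (G.neighborSet v ∩ S).ncard ≤ k)
    (hd : ∀ v, (G.neighborSet v).ncard + 2 ≤ 2 * L) (hkL : k ≤ L) : Cov G L := by
  classical
  have := Fintype.ofFinite V
  obtain ⟨ρ, hρ, hb⟩ := exists_rank G k hk
  obtain ⟨T, hT, hTc⟩ := exists_T G ρ (L - 1)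
  have ht : ∀ a, (spl G ρ T).degree (a, true) + 1 ≤ L := by
    intro a
    rw [deg_true G ρ T hT, hTc]
    have := min_le_right (later G ρ a).card (L - 1)
    have := hd a
    omega
  have hf : ∀ a, (spl G ρ T).degree (a, false) ≤ L ∧
      (L ≤ (later G ρ a).card → (spl G ρ T).degree (a, false) + 1 ≤ L) := by
    intro a
    rw [deg_false G ρ T hρ hT, hTc]
    have h1 := card_nbr G ρ hρ a
    have h2 := hd a
    have h3 := hb a
    rw [← earlier_card] at h3
    rcases Nat.le_total (later G ρ a).card (L - 1) with h | h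
    · rw [min_eq_left h]
      constructor
      · omega
      · intro h'; omega
    · rw [min_eq_right h]
      constructor
      · omega
      · intro h'; omega
  obtain ⟨φ, p1, p2, p3⟩ := class_one (spl G ρ T) L
    (by
      rintro ⟨a, b⟩
      cases b
      · exact (hf a).1
      · have := ht a; omega)
    (by
      have key : ∀ a b, (spl G ρ T).Adj (a, false) (b, false) → ρ b < ρ a →
          (spl G ρ T).degree (b, false) = L → False := by
        intro a b hadj h h1
        have h2 : a ∉ T b := by
          have h3 := hadj.2.2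
          have h4 : ¬ ρ a < ρ b := by omega
          simpa [side, h4] using h3
        have h3 : a ∈ later G ρ b := by
          simp only [later, mem_filter, mem_univ, true_and]
          exact ⟨hadj.1.symm, h⟩
        have h4 : (T b).card < (later G ρ b).card :=
          Finset.card_lt_card ⟨hT b, fun h' => h2 (h' h3)⟩
        rw [hTc] at h4
        have h5 : L ≤ (later G ρ b).card := by
          rcases Nat.le_total (later G ρ b).card (L - 1) with h | h
          · rw [min_eq_left h] at h4; omega
          · rw [min_eq_right h] at h4; omega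
        have := (hf b).2 h5
        omega
      rintro ⟨a, α⟩ ⟨b, β⟩ hadj h1 h2
      have hα : α = false := by
        cases α
        · rfl
        · have := ht a; omega
      have hβ : β = false := by
        cases β
        · rfl
        · have := ht b; omega
      subst hα; subst hβ
      have hne : ρ a ≠ ρ b := fun h => hadj.1.ne (hρ h)
      rcases Nat.lt_or_ge (ρ b) (ρ a) with h | h
      · exact key a b hadj h h2
      · exact key b a hadj.symm (by omega) h1)
  exact cov_of_col G ρ T hρ L φ p1 p2 p3

theorem cov_three {V : Type} [Finite V] (G : SimpleGraph V) (L k : ℕ)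
    (hk : ∀ S : Set V, S.Nonempty → ∃ v ∈ S, (G.neighborSet v ∩ S).ncard ≤ k)
    (hbip : ∃ χ : V → Bool, ∀ u v, G.Adj u v → χ u ≠ χ v)
    (hd : ∀ v, (G.neighborSet v).ncard ≤ 2 * L) (hkL : k ≤ L) : Cov G L := by
  classical
  have := Fintype.ofFinite V
  obtain ⟨χ, hχ⟩ := hbip
  obtain ⟨ρ, hρ, hb⟩ := exists_rank G k hk
  obtain ⟨T, hT, hTc⟩ := exists_T G ρ L
  have ht : ∀ a, (spl G ρ T).degree (a, true) ≤ L := by
    intro a
    rw [deg_true G ρ T hT, hTc]
    exact min_le_right _ _
  have hf : ∀ a, (spl G ρ T).degree (a, false) ≤ L := by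
    intro a
    rw [deg_false G ρ T hρ hT, hTc]
    have h1 := card_nbr G ρ hρ a
    have h2 := hd a
    have h3 := hb a
    rw [← earlier_card] at h3
    rcases Nat.le_total (later G ρ a).card L with h | h
    · rw [min_eq_left h]; omega
    · rw [min_eq_right h]; omega
  obtain ⟨φ, p1, p2, p3⟩ := konig_graph (spl G ρ T) L (fun x => χ x.1)
    (fun u v h => hχ _ _ h.1)
    (by
      rintro ⟨a, b⟩
      cases b
      · exact hf a
      · exact ht a)
  exact cov_of_col G ρ T hρ L φ p1 p2 p3

end Pool.Agent.TH525.LAD
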